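import Pool.Agent.W998.KG.Stm

/-!
Part GAQ of project KG: a chord from the end of a lollipop.
-/

set_option autoImplicit false

namespace Pool.Agent.W3.KG.GAQ

open Pool.Agent.Results.MP_633d19_co.SmallDegree
open Pool.Agent.Results.MP_633d19_co.SmallDegree.MGraph
open Pool.Agent.W998.KG

/-- a closed walk with distinct vertices is a cycle -/
theorem cycle_of {V E : Type} {G : MGraph V E} (n : ℕ) (v : ℕ → V)
    (hinj : ∀ i ≤ n, ∀ j ≤ n, v i = v j → i = j)
    (hed : ∀ i < n, ∃ e, G.ends e = s(v i, v (i + 1)))
    (hcl : ∃ e, G.ends e = s(v n, v 0)) : G.HasCycle (n + 1) := by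
  refine ⟨v, fun i hi j hj h => hinj i (by omega) j (by omega) h, fun i hi => ?_⟩
  rcases Nat.lt_or_ge i n with h | h
  · rw [Nat.mod_eq_of_lt (by omega)]
    exact hed i h
  · have : i = n := by omega
    subst this
    rw [Nat.mod_self]
    exact hcl

theorem main : PartGAQ := by
  intro V E G g l r hg hcyc y hinj hed hl hodd hlr hclo i hi hch
  -- first cycle
  have h1 : g ≤ (r - i) + 1 := by
    refine hcyc _ (by omega) (cycle_of (r - i) (fun j => y (i + j)) ?_ ?_ ?_)
    · intro a ha b hb h
      have := hinj (i + a) (by omega) (i + b) (by omega) h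
      omega
    · intro a ha
      exact hed (i + a) (by omega)
    · have e1 : i + (r - i) = r := by omega
      simp only [e1, Nat.add_zero]
      exact hch
  rcases Nat.lt_or_ge i (l - 1) with hil | hil
  · -- second cycle
    have h2 : g ≤ (r + i + 2 - l) + 1 := by
      refine hcyc _ (by omega) (cycle_of (r + i + 2 - l)
        (fun j => if j ≤ i then y (i - j) else y (l + j - i - 2)) ?_ ?_ ?_)
      · intro a ha b hb h
        split_ifs at h with c1 c2 c2
        · have := hinj (i - a) (by omega) (i - b) (by omega) h
          omega
        · have := hinj (i - a) (by omega) (l + b - i - 2) (by omega) h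
          omega
        · have := hinj (l + a - i - 2) (by omega) (i - b) (by omega) h
          omega
        · have := hinj (l + a - i - 2) (by omega) (l + b - i - 2) (by omega) h
          omega
      · intro a ha
        rcases Nat.lt_trichotomy a i with c | c | c
        · obtain ⟨e, he⟩ := hed (i - (a + 1)) (by omega)
          refine ⟨e, ?_⟩
          rw [if_pos (by omega : a ≤ i), if_pos (by omega : a + 1 ≤ i), he, Sym2.eq_swap]
          have : i - (a + 1) + 1 = i - a := by omega
          rw [this]
        · subst c
          obtain ⟨e, he⟩ := hclo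
          refine ⟨e, ?_⟩
          rw [if_pos (le_refl a), if_neg (by omega : ¬ a + 1 ≤ a), he, Sym2.eq_swap]
          have e1 : a - a = 0 := by omega
          have e2 : l + (a + 1) - a - 2 = l - 1 := by omega
          rw [e1, e2]
        · obtain ⟨e, he⟩ := hed (l + a - i - 2) (by omega)
          refine ⟨e, ?_⟩
          rw [if_neg (by omega : ¬ a ≤ i), if_neg (by omega : ¬ a + 1 ≤ i), he]
          have : l + a - i - 2 + 1 = l + (a + 1) - i - 2 := by omega
          rw [this]
      · obtain ⟨e, he⟩ := hch
        refine ⟨e, ?_⟩
        rw [if_neg (by omega : ¬ r + i + 2 - l ≤ i), if_pos (by omega : 0 ≤ i), he]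
        have : l + (r + i + 2 - l) - i - 2 = r := by omega
        rw [this, Nat.sub_zero]
    omega
  · omega

end Pool.Agent.W3.KG.GAQ
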